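import Mathlib
import Pool.Agent.Run7.h79.Final
import Pool.Agent.Run7.h79.GolodGroup

/-!
MP_c98bf6_al, Q1 in characteristic two: in every Golod group over a field of characteristic two
the centralizer of every element is infinite.

The proof is group theoretic: a 2-group having an element with finite centralizer has an abelian
subgroup of finite index with only finitely many involutions (so it cannot be finitely generated
and infinite).
-/

set_option autoImplicit false

universe u v

theorem Pool.Agent.Results.MP_c98bf6_al.CharTwo.result :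
    ∀ (K : Type u) [Field K], CharP K 2 →
    ∀ (B : Type v) [Ring B] [Algebra K B] (r : ℕ), 2 ≤ r → ∀ (y : Fin r → B),
      (∀ a ∈ NonUnitalAlgebra.adjoin K (Set.range y), IsNilpotent a) →
      (∀ n : ℕ, ∃ w : Fin n → Fin r, (List.ofFn (fun i => y (w i))).prod ≠ 0) →
      ∀ g ∈ Subgroup.closure {u : Bˣ | ∃ i, (u : B) = 1 + y i},
        {h : Bˣ | h ∈ Subgroup.closure {u : Bˣ | ∃ i, (u : B) = 1 + y i} ∧
          h * g = g * h}.Infinite := by
  intro K _ hK B _ _ r _ y hnil hne g hg
  have hBn : Nontrivial B := by
    obtain ⟨w, hw⟩ := hne 1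
    exact ⟨⟨_, 0, hw⟩⟩
  have : Fact (Nat.Prime 2) := ⟨Nat.prime_two⟩
  have hB : CharP B 2 := charP_of_injective_algebraMap (algebraMap K B).injective 2
  have hP := Run7.h79.golod_isPGroup 2 y hnil
  have hFG := Run7.h79.golod_fg y
  have hinf := Run7.h79.golod_infinite 2 y hnil hne
  have h1 := Run7.h79.infinite_centralizer hP
    (⟨g, hg⟩ : Subgroup.closure {u : Bˣ | ∃ i, (u : B) = 1 + y i})
  refine (h1.image (f := Subtype.val) Subtype.val_injective.injOn).mono ?_
  rintro _ ⟨h, hh, rfl⟩
  exact ⟨h.2, congrArg Subtype.val (Subgroup.mem_centralizer_singleton_iff.1 hh)⟩
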